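import Mathlib

/-!
# The complete cd-index: definitions

* `Sys` : labelled Bruhat graph of a Coxeter group (vertices `W`, labels `L` = reflections)
* `Roots` : positive roots of the labels
* `RO` : reflection orders
* `Rf` : the transfer recursion
* `St` : the cd-state `(f, g, f', n)`
-/

set_option linter.unusedVariables false

open Finset

namespace Pool.Agent.H52.CD

open Classical in
/-- labelled Bruhat graph: `N y` are the labels `t` with `y t < y`, `S` the simple labels, `cj s t = s t s` -/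
structure Sys (W L : Type) where
  act : W → L → W
  N : W → Finset L
  len : W → ℕ
  S : Set L
  cj : L → L → L
  act_act : ∀ y t, act (act y t) t = y
  len_lt : ∀ y t, t ∈ N y → len (act y t) < len y
  mem_act : ∀ y t, t ∈ N (act y t) ↔ t ∉ N y
  cj_cj : ∀ s ∈ S, ∀ t, cj s (cj s t) = t
  cj_self : ∀ s ∈ S, cj s s = s
  act_cj : ∀ s ∈ S, ∀ w t, act (act w s) t = act (act w (cj s t)) s
  mem_cj : ∀ s ∈ S, ∀ w t, t ≠ s → (t ∈ N (act w s) ↔ cj s t ∈ N w)
  exists_S : ∀ y, (N y).Nonempty → ∃ s ∈ S, s ∈ N y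

/-- root data of a labelled Bruhat graph -/
structure Roots {W L : Type} (Y : Sys W L) (V : Type) [AddCommGroup V] [Module ℝ V] where
  root : L → V
  g : V →ₗ[ℝ] ℝ
  g_pos : ∀ t, 0 < g (root t)
  ne : ∀ t t' (x : ℝ), root t = x • root t' → t = t'
  γ : W → V →ₗ[ℝ] ℝ
  neg : ∀ z t, t ∈ Y.N z → γ z (root t) < 0
  pos : ∀ z t, t ∉ Y.N z → 0 < γ z (root t)
  A : L → V →ₗ[ℝ] V
  A_root : ∀ s ∈ Y.S, ∀ t, t ≠ s → A s (root t) = root (Y.cj s t)
  A_self : ∀ s ∈ Y.S, A s (root s) = - root s
  A_diff : ∀ s ∈ Y.S, ∀ t, t ≠ s → ∃ m : ℝ, root (Y.cj s t) = root t + m • root s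
  plane : ∀ y r t r' t', r ≠ t → Y.act (Y.act y r) t = Y.act (Y.act y r') t' →
    ∃ a b a' b' : ℝ, root r' = a • root r + b • root t ∧ root t' = a' • root r + b' • root t

section

variable {W L V : Type} [AddCommGroup V] [Module ℝ V]

/-- reflection orders (`lt` is only a relation of labels, with the betweenness property) -/
structure RO {Y : Sys W L} (D : Roots Y V) where
  lt : L → L → Prop
  irrefl : ∀ t, ¬ lt t t
  trans : ∀ {a b c}, lt a b → lt b c → lt a c
  total : ∀ a b, lt a b ∨ a = b ∨ lt b a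
  btw : ∀ a b u (x y : ℝ), 0 < x → 0 < y → a ≠ b → D.root u = x • D.root a + y • D.root b →
    (lt a u ∧ lt u b) ∨ (lt b u ∧ lt u a)

variable {Y : Sys W L} {D : Roots Y V}

/-- initial sections -/
def RO.Init (O : RO D) (C : Set L) : Prop := ∀ a b, b ∈ C → O.lt a b → a ∈ C

/-- final sections -/
def RO.Fin (O : RO D) (F : Set L) : Prop := ∀ a b, a ∈ F → O.lt a b → b ∈ F

/-- the reversed order -/
def RO.rev (O : RO D) : RO D where
  lt a b := O.lt b a
  irrefl t := O.irrefl t
  trans h1 h2 := O.trans h2 h1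
  total a b := by
    rcases O.total a b with h | h | h
    · exact Or.inr (Or.inr h)
    · exact Or.inr (Or.inl h)
    · exact Or.inl h
  btw a b u x y hx hy hab h := by
    rcases O.btw a b u x y hx hy hab h with h | h
    · exact Or.inr ⟨h.2, h.1⟩
    · exact Or.inl ⟨h.2, h.1⟩

/-- first the labels `< s` in the old order, then the conjugates of the labels `> s`, then `s` -/
def upLt (Y : Sys W L) (lt : L → L → Prop) (s a b : L) : Prop :=
  (b = s ∧ a ≠ s) ∨ (lt a s ∧ lt b s ∧ lt a b) ∨ (lt a s ∧ lt s b) ∨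
    (lt s a ∧ lt s b ∧ lt (Y.cj s a) (Y.cj s b))

/-- first `s`, then the conjugates of the labels `< s`, then the labels `> s` in the old order -/
def lowLt (Y : Sys W L) (lt : L → L → Prop) (s a b : L) : Prop :=
  (a = s ∧ b ≠ s) ∨ (lt s a ∧ lt s b ∧ lt a b) ∨ (lt s b ∧ lt a s) ∨
    (lt a s ∧ lt b s ∧ lt (Y.cj s a) (Y.cj s b))

/-- lexicographic order: first the value of the functional `l` on the normalised root, then `O` -/
def RO.lex (O : RO D) (l : V →ₗ[ℝ] ℝ) : RO D where
  lt a b := l (D.root a) * D.g (D.root b) < l (D.root b) * D.g (D.root a) ∨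
    (l (D.root a) * D.g (D.root b) = l (D.root b) * D.g (D.root a) ∧ O.lt a b)
  irrefl t h := by
    rcases h with h | h
    · exact lt_irrefl _ h
    · exact O.irrefl _ h.2
  trans {a b c} h1 h2 := by
    have pa := D.g_pos a
    have pb := D.g_pos b
    have pc := D.g_pos c
    have e : ∀ u v, l (D.root u) * D.g (D.root v) < l (D.root v) * D.g (D.root u) ↔
        l (D.root u) / D.g (D.root u) < l (D.root v) / D.g (D.root v) := by
      intro u v
      rw [div_lt_div_iff₀ (D.g_pos u) (D.g_pos v)]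
    have e' : ∀ u v, l (D.root u) * D.g (D.root v) = l (D.root v) * D.g (D.root u) ↔
        l (D.root u) / D.g (D.root u) = l (D.root v) / D.g (D.root v) := by
      intro u v
      rw [div_eq_div_iff (D.g_pos u).ne' (D.g_pos v).ne']
    rw [e, e'] at h1 h2 ⊢
    rcases h1 with h1 | h1 <;> rcases h2 with h2 | h2
    · exact Or.inl (h1.trans h2)
    · exact Or.inl (by rw [← h2.1]; exact h1)
    · exact Or.inl (by rw [h1.1]; exact h2)
    · exact Or.inr ⟨h1.1.trans h2.1, O.trans h1.2 h2.2⟩
  total a b := by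
    rcases lt_trichotomy (l (D.root a) * D.g (D.root b)) (l (D.root b) * D.g (D.root a)) with h | h | h
    · exact Or.inl (Or.inl h)
    · rcases O.total a b with h' | h' | h'
      · exact Or.inl (Or.inr ⟨h, h'⟩)
      · exact Or.inr (Or.inl h')
      · exact Or.inr (Or.inr (Or.inr ⟨h.symm, h'⟩))
    · exact Or.inr (Or.inr (Or.inl h))
  btw a b u x y hx hy hab h := by
    have hu1 : l (D.root u) = x * l (D.root a) + y * l (D.root b) := by rw [h]; simp
    have hu2 : D.g (D.root u) = x * D.g (D.root a) + y * D.g (D.root b) := by rw [h]; simp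
    rw [hu1, hu2]
    rcases lt_trichotomy (l (D.root a) * D.g (D.root b)) (l (D.root b) * D.g (D.root a)) with h1 | h1 | h1
    · left
      constructor
      · left; nlinarith [mul_pos hy (sub_pos.2 h1)]
      · left; nlinarith [mul_pos hx (sub_pos.2 h1)]
    · rcases O.btw a b u x y hx hy hab h with h2 | h2
      · left
        exact ⟨Or.inr ⟨by linear_combination y * h1, h2.1⟩, Or.inr ⟨by linear_combination x * h1, h2.2⟩⟩
      · right
        exact ⟨Or.inr ⟨by linear_combination (-x) * h1, h2.1⟩, Or.inr ⟨by linear_combination (-y) * h1, h2.2⟩⟩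
    · right
      constructor
      · left; nlinarith [mul_pos hx (sub_pos.2 h1)]
      · left; nlinarith [mul_pos hy (sub_pos.2 h1)]

open Classical in
/-- the transfer recursion along the labels of `F` in increasing order -/
noncomputable def Rf (Y : Sys W L) (lt : L → L → Prop) {E : Type} [AddCommGroup E] (M : E →+ E) (e : W → E)
    (F : Set L) (y : W) : E :=
  e y + ∑ t ∈ (Y.N y).attach, if t.1 ∈ F then M (Rf Y lt M e (F ∩ {u | lt u t.1}) (Y.act y t.1)) else 0
termination_by Y.len y
decreasing_by exact Y.len_lt y t.1 t.2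

open Classical in
theorem Rf_eq (Y : Sys W L) (lt : L → L → Prop) {E : Type} [AddCommGroup E] (M : E →+ E) (e : W → E)
    (F : Set L) (y : W) : Rf Y lt M e F y =
      e y + ∑ t ∈ Y.N y with t ∈ F, M (Rf Y lt M e (F ∩ {u | lt u t}) (Y.act y t)) := by
  rw [Rf, Finset.sum_filter]
  congr 1
  exact Finset.sum_attach (Y.N y) (fun t => if t ∈ F then M (Rf Y lt M e (F ∩ {u | lt u t}) (Y.act y t)) else 0)

/-! ## cd-states -/

section cd

variable {R : Type} [Ring R]

/-- states `(f, g, f', n)` -/
abbrev Sta (R : Type) : Type := R × R × R × ℤ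

/-- `f c + g d + n` -/
def uu (c d : R) (v : Sta R) : R := v.1 * c + v.2.1 * d + (v.2.2.2 : R)

/-- `f' c + g d + n` -/
def uv (c d : R) (v : Sta R) : R := v.2.2.1 * c + v.2.1 * d + (v.2.2.2 : R)

/-- crossing a label -/
def MM (c d : R) : Sta R →+ Sta R where
  toFun v := (uu c d v, v.2.2.1 - v.1, - uv c d v, 0)
  map_zero' := by simp [uu, uv]
  map_add' v w := by
    refine Prod.ext ?_ (Prod.ext ?_ (Prod.ext ?_ ?_))
    · simp only [uu, Prod.fst_add, Prod.snd_add, Int.cast_add]; noncomm_ring
    · simp only [Prod.fst_add, Prod.snd_add]; abel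
    · simp only [uv, Prod.fst_add, Prod.snd_add, Int.cast_add]; noncomm_ring
    · simp

/-- exchange of `f` and `f'` -/
def sw (v : Sta R) : Sta R := (v.2.2.1, v.2.1, v.1, v.2.2.2)

open Classical in
/-- the cd-state of the paths from `x` to `z` with labels in `F` -/
noncomputable def St (Y : Sys W L) (lt : L → L → Prop) (c d : R) (x : W) (F : Set L) (z : W) : Sta R :=
  (if z = x then (0, 0, 0, 1) else
    (0, 0, ∑ t ∈ (Y.N z).attach, uv c d (St Y lt c d x {u | lt u t.1} (Y.act z t.1)), 0)) +
    ∑ t ∈ (Y.N z).attach, if t.1 ∈ F then MM c d (St Y lt c d x (F ∩ {u | lt u t.1}) (Y.act z t.1)) else 0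
termination_by Y.len z
decreasing_by
  · exact Y.len_lt z t.1 t.2
  · exact Y.len_lt z t.1 t.2

/-- the complete cd-index of `(x, z)` -/
noncomputable def Ph (Y : Sys W L) (lt : L → L → Prop) (c d : R) (x z : W) : R :=
  ∑ t ∈ Y.N z, uv c d (St Y lt c d x {u | lt u t} (Y.act z t))

open Classical in
/-- the source term -/
noncomputable def bas (Y : Sys W L) (lt : L → L → Prop) (c d : R) (x z : W) : Sta R :=
  if z = x then (0, 0, 0, 1) else (0, 0, Ph Y lt c d x z, 0)

open Classical in
theorem St_eq (Y : Sys W L) (lt : L → L → Prop) (c d : R) (x : W) (F : Set L) (z : W) :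
    St Y lt c d x F z = bas Y lt c d x z +
      ∑ t ∈ Y.N z with t ∈ F, MM c d (St Y lt c d x (F ∩ {u | lt u t}) (Y.act z t)) := by
  rw [St, bas, Finset.sum_filter, Ph]
  congr 1
  · rw [Finset.sum_attach (Y.N z) (fun t => uv c d (St Y lt c d x {u | lt u t} (Y.act z t)))]
  · exact Finset.sum_attach (Y.N z)
      (fun t => if t ∈ F then MM c d (St Y lt c d x (F ∩ {u | lt u t}) (Y.act z t)) else 0)

theorem St_eq_Rf (Y : Sys W L) (lt : L → L → Prop) (c d : R) (x : W) (F : Set L) (z : W) :
    St Y lt c d x F z = Rf Y lt (MM c d) (bas Y lt c d x) F z := by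
  classical
  have : ∀ n (z : W), Y.len z = n → ∀ F : Set L,
      St Y lt c d x F z = Rf Y lt (MM c d) (bas Y lt c d x) F z := by
    intro n
    induction n using Nat.strong_induction_on with
    | _ n ih =>
      intro z hz F
      rw [St_eq, Rf_eq]
      congr 1
      refine Finset.sum_congr rfl fun t ht => ?_
      rw [Finset.mem_filter] at ht
      rw [ih _ (by rw [← hz]; exact Y.len_lt z t ht.1) _ rfl]
  exact this _ z rfl F

end cd

section ab

variable {R : Type} [Semiring R]

open Classical in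
/-- ab-words: sum over the paths from `x` to `z` with last label in `F` -/
noncomputable def Ab (Y : Sys W L) (lt : L → L → Prop) (a b : R) (x : W) (F : Set L) (z : W) : R :=
  ∑ t ∈ (Y.N z).attach, if t.1 ∈ F then
    ((if Y.act z t.1 = x then 1 else 0) + Ab Y lt a b x {u | lt u t.1} (Y.act z t.1) * a +
      Ab Y lt a b x {u | ¬ lt u t.1} (Y.act z t.1) * b) else 0
termination_by Y.len z
decreasing_by
  · exact Y.len_lt z t.1 t.2
  · exact Y.len_lt z t.1 t.2

open Classical in
theorem Ab_eq (Y : Sys W L) (lt : L → L → Prop) (a b : R) (x : W) (F : Set L) (z : W) :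
    Ab Y lt a b x F z = ∑ t ∈ Y.N z with t ∈ F,
      ((if Y.act z t = x then 1 else 0) + Ab Y lt a b x {u | lt u t} (Y.act z t) * a +
        Ab Y lt a b x {u | ¬ lt u t} (Y.act z t) * b) := by
  rw [Ab, Finset.sum_filter]
  exact Finset.sum_attach (Y.N z) (fun t => if t ∈ F then
    ((if Y.act z t = x then 1 else 0) + Ab Y lt a b x {u | lt u t} (Y.act z t) * a +
      Ab Y lt a b x {u | ¬ lt u t} (Y.act z t) * b) else 0)

end ab

/-! ## planar position -/

/-- first coordinate -/
noncomputable def pa (D : Roots Y V) (l : V →ₗ[ℝ] ℝ) (t : L) : ℝ := l (D.root t) / D.g (D.root t)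

/-- slope parameter of the line through `r` and `t` -/
noncomputable def kap (D : Roots Y V) (l h : V →ₗ[ℝ] ℝ) (r t : L) : ℝ :=
  -((pa D h t - pa D h r) / (pa D l t - pa D l r))

/-- the order of parameter `k`: first `h + k l`, then `l`, then `O` -/
noncomputable def RO.kk (O : RO D) (l h : V →ₗ[ℝ] ℝ) (k : ℝ) : RO D := (O.lex l).lex (h + k • l)

/-- `l` separates the normalised roots of `T` -/
def Inj (D : Roots Y V) (T : Finset L) (l : V →ₗ[ℝ] ℝ) : Prop :=
  ∀ t ∈ T, ∀ t' ∈ T, pa D l t = pa D l t' → t = t'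

/-- collinear points of `T` have coplanar roots -/
def Gen (D : Roots Y V) (T : Finset L) (l h : V →ₗ[ℝ] ℝ) : Prop :=
  ∀ t ∈ T, ∀ t' ∈ T, ∀ t'' ∈ T, t ≠ t' →
    (pa D h t' - pa D h t) * (pa D l t'' - pa D l t) = (pa D h t'' - pa D h t) * (pa D l t' - pa D l t) →
    ∃ a b : ℝ, D.root t'' = a • D.root t + b • D.root t'

/-- `Low Y y z`: `z` is reached from `y` by going down -/
inductive Low (Y : Sys W L) (y : W) : W → Prop
  | refl : Low Y y y
  | step {z : W} {t : L} : Low Y y z → t ∈ Y.N z → Low Y y (Y.act z t)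

end

end Pool.Agent.H52.CD
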