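import Pool.Agent.H52.CD.Defs

/-!
# The complete cd-index: the geometric representation (definitions)

`V = (B →₀ ℝ) × (B → ℝ)`; the simple reflection `s_i` maps `(x, y)` to `(x, y) - (B(x, α_i) + y_i) (α_i, 0)`.
The second factor makes the coroots of a set of independent roots independent.
-/

set_option linter.unusedVariables false

open Finset

namespace Pool.Agent.H52.CD

section geo

variable {B W : Type} [Group W]

/-- Gram matrix (`M i j = 0` means infinity, then the entry is `-2`) -/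
noncomputable def bil (M : CoxeterMatrix B) (i j : B) : ℝ := -2 * Real.cos (Real.pi / (M i j : ℝ))

/-- the space of the representation -/
abbrev VV (B : Type) : Type := (B →₀ ℝ) × (B → ℝ)

/-- simple coroots: `(x, y) ↦ B(x, α_i) + y_i` -/
noncomputable def co1 (M : CoxeterMatrix B) (i : B) : VV B →ₗ[ℝ] ℝ :=
  (Finsupp.linearCombination ℝ (fun j => bil M j i)).comp (LinearMap.fst ℝ (B →₀ ℝ) (B → ℝ)) +
    (LinearMap.proj i).comp (LinearMap.snd ℝ (B →₀ ℝ) (B → ℝ))

theorem co1_apply (M : CoxeterMatrix B) (i : B) (v : VV B) :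
    co1 M i v = v.1.sum (fun j a => a * bil M j i) + v.2 i := by
  simp [co1, Finsupp.linearCombination_apply]

/-- `co β (x, y) = B(x, β) + ⟨y, β⟩` -/
noncomputable def co (M : CoxeterMatrix B) : (B →₀ ℝ) →ₗ[ℝ] VV B →ₗ[ℝ] ℝ :=
  Finsupp.linearCombination ℝ (co1 M)

/-- `x ↦ (x, 0)` -/
noncomputable def iv (x : B →₀ ℝ) : VV B := (x, 0)

/-- simple roots -/
noncomputable def al (i : B) : B →₀ ℝ := Finsupp.single i 1

/-- the reflection of `β`: `v ↦ v - co β v • (β, 0)` -/
noncomputable def rf (M : CoxeterMatrix B) (β : B →₀ ℝ) : Module.End ℝ (VV B) :=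
  LinearMap.id - (co M β).smulRight (iv β)

theorem rf_apply (M : CoxeterMatrix B) (β : B →₀ ℝ) (v : VV B) :
    rf M β v = v - co M β v • iv β := by
  simp [rf]

/-- the geometric representation -/
structure Geo {M : CoxeterMatrix B} (cs : CoxeterSystem M W) where
  ρ : W →* Module.End ℝ (VV B)
  simple : ∀ i, ρ (cs.simple i) = rf M (al i)

/-- the positive roots of the reflections -/
structure RootFn {M : CoxeterMatrix B} {cs : CoxeterSystem M W} (G : Geo cs) where
  rt : {t : W // cs.IsReflection t} → (B →₀ ℝ)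
  nonneg : ∀ t j, 0 ≤ rt t j
  ne_zero : ∀ t, rt t ≠ 0
  simple : ∀ i, rt ⟨cs.simple i, cs.isReflection_simple i⟩ = al i
  act : ∀ t, G.ρ t.1 = rf M (rt t)
  self : ∀ t, co M (rt t) (iv (rt t)) = 2
  inj : ∀ t t' (x : ℝ), rt t = x • rt t' → t = t'
  /-- `ρ(w)` maps roots to roots, up to sign -/
  conj : ∀ (w : W) t, G.ρ w (iv (rt t)) = iv (rt ⟨w * t.1 * w⁻¹, t.2.conj w⟩) ∨
    G.ρ w (iv (rt t)) = - iv (rt ⟨w * t.1 * w⁻¹, t.2.conj w⟩)

/-- the condition on reflection orders in the frozen statement -/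
def RefOrd {M : CoxeterMatrix B} (cs : CoxeterSystem M W) (lt : W → W → Prop) : Prop :=
  ∀ α β : W, cs.IsReflection α → cs.IsReflection β → α ≠ β →
      (∀ t ∈ Subgroup.closure ({α, β} : Set W), cs.IsReflection t →
          cs.length (t * α) < cs.length α → t = α) →
      (∀ t ∈ Subgroup.closure ({α, β} : Set W), cs.IsReflection t →
          cs.length (t * β) < cs.length β → t = β) →
      lt α β →
      (orderOf (α * β) ≠ 0 → ∀ i j : ℕ, i < j → j < orderOf (α * β) →
          lt ((α * β) ^ i * α) ((α * β) ^ j * α)) ∧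
      (orderOf (α * β) = 0 →
        (∀ i j : ℕ, i < j → lt ((α * β) ^ i * α) ((α * β) ^ j * α)) ∧
        (∀ i j : ℕ, i < j → lt ((β * α) ^ j * β) ((β * α) ^ i * β)) ∧
        (∀ i j : ℕ, lt ((α * β) ^ i * α) ((β * α) ^ j * β)))

/-- the labelled Bruhat graph of a Coxeter system with its roots -/
structure Model {M : CoxeterMatrix B} {cs : CoxeterSystem M W} {G : Geo cs} (Rt : RootFn G) where
  Y : Sys W {t : W // cs.IsReflection t}
  D : Roots Y (VV B)
  act : ∀ w t, Y.act w t = w * t.1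
  len : ∀ w, Y.len w = cs.length w
  memN : ∀ w t, t ∈ Y.N w ↔ cs.length (w * t.1) < cs.length w
  root : ∀ t, D.root t = iv (Rt.rt t)

end geo

end Pool.Agent.H52.CD
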