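import Pool.Agent.H52.CD.GDefs

/-!
# The complete cd-index: statements of the modules

Every module is a proposition; the others may be taken as hypotheses.
-/

set_option linter.unusedVariables false

open Finset

namespace Pool.Agent.H52.CD

/-- strict total orders -/
structure STO {L : Type} (lt : L → L → Prop) : Prop where
  irrefl : ∀ t, ¬ lt t t
  trans : ∀ a b c, lt a b → lt b c → lt a c
  total : ∀ a b, lt a b ∨ a = b ∨ lt b a

/-! ## Part A: the transfer calculus -/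

/-- RSPL: splitting -/
def RSPL : Prop := ∀ (W L : Type) (Y : Sys W L) (lt : L → L → Prop), STO lt →
  ∀ (E : Type) [AddCommGroup E] (M : E →+ E) (e : W → E) (F1 F2 : Set L) (y : W),
  (∀ a ∈ F1, ∀ b ∈ F2, lt a b) →
  Rf Y lt M e (F1 ∪ F2) y = Rf Y lt M (fun w => Rf Y lt M e F1 w) F2 y

open Classical in
/-- RSGL: one label -/
def RSGL : Prop := ∀ (W L : Type) (Y : Sys W L) (lt : L → L → Prop), STO lt →
  ∀ (E : Type) [AddCommGroup E] (M : E →+ E) (e : W → E) (s : L) (y : W),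
  Rf Y lt M e {s} y = e y + if s ∈ Y.N y then M (e (Y.act y s)) else 0

/-- RHOM: homomorphisms -/
def RHOM : Prop := ∀ (W L : Type) (Y : Sys W L) (lt : L → L → Prop) (E E' : Type) [AddCommGroup E]
  [AddCommGroup E'] (M : E →+ E) (M' : E' →+ E') (φ : E →+ E'), (∀ x, φ (M x) = M' (φ x)) →
  ∀ (e : W → E) (F : Set L) (y : W),
  φ (Rf Y lt M e F y) = Rf Y lt M' (fun w => φ (e w)) F y

/-- RADD: additivity -/
def RADD : Prop := ∀ (W L : Type) (Y : Sys W L) (lt : L → L → Prop) (E : Type) [AddCommGroup E]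
  (M : E →+ E) (e e' : W → E) (F : Set L) (y : W),
  Rf Y lt M (fun w => e w + e' w) F y = Rf Y lt M e F y + Rf Y lt M e' F y

/-- RCNJ: conjugation by a simple label `s ∉ F` -/
def RCNJ : Prop := ∀ (W L : Type) (Y : Sys W L) (lt lt' : L → L → Prop) (s : L), s ∈ Y.S →
  ∀ (F : Set L), s ∉ F → (∀ a ∈ F, ∀ b ∈ F, lt a b ↔ lt' (Y.cj s a) (Y.cj s b)) →
  ∀ (E : Type) [AddCommGroup E] (M : E →+ E) (e : W → E) (w : W),
  Rf Y lt M e F (Y.act w s) = Rf Y lt' M (fun w => e (Y.act w s)) {t | Y.cj s t ∈ F} w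

/-- RCGR: congruence -/
def RCGR : Prop := ∀ (W L : Type) (Y : Sys W L) (lt lt' : L → L → Prop) (T : Set L) (F F' : Set L)
  (E : Type) [AddCommGroup E] (M : E →+ E) (e e' : W → E) (y : W),
  (∀ z, Low Y y z → ∀ t ∈ Y.N z, t ∈ T) → (∀ z, Low Y y z → e z = e' z) →
  (∀ a ∈ T, ∀ b ∈ T, a ∈ F → b ∈ F → (lt a b ↔ lt' a b)) → (∀ t ∈ T, t ∈ F ↔ t ∈ F') →
  Rf Y lt M e F y = Rf Y lt' M e' F' y

/-- RINV: the inverse of the recursion -/
def RINV : Prop := ∀ (W L : Type) (Y : Sys W L) (lt : L → L → Prop), STO lt →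
  ∀ (E : Type) [AddCommGroup E] (M : E →+ E) (e : W → E) (F : Set L) (y : W),
  Rf Y (fun a b => lt b a) (-M) (fun w => Rf Y lt M e F w) F y = e y

/-- ORDC: the two sides of a simple label are stable, and the conjugated orders are reflection orders -/
def ORDC : Prop := ∀ (W L V : Type) [AddCommGroup V] [Module ℝ V] (Y : Sys W L) (D : Roots Y V) (O : RO D)
  (s : L), s ∈ Y.S →
  (∀ t, t ≠ s → Y.cj s t ≠ s) ∧
  (∀ t, O.lt t s → O.lt (Y.cj s t) s) ∧ (∀ t, O.lt s t → O.lt s (Y.cj s t)) ∧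
  (∃ O' : RO D, O'.lt = upLt Y O.lt s) ∧ (∃ O' : RO D, O'.lt = lowLt Y O.lt s)

/-- HH: for a common final section the recursion does not depend on the order -/
def HH : Prop := ∀ (W L V : Type) [AddCommGroup V] [Module ℝ V] (Y : Sys W L) (D : Roots Y V) (O1 O2 : RO D)
  (F : Set L), O1.Fin F → O2.Fin F → ∀ (E : Type) [AddCommGroup E] (M : E →+ E) (e : W → E) (y : W),
  Rf Y O1.lt M e F y = Rf Y O2.lt M e F y

/-- PP1: the value on an initial section depends only on its trace on `N y` -/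
def PP1 : Prop := ∀ (W L V : Type) [AddCommGroup V] [Module ℝ V] (Y : Sys W L) (D : Roots Y V) (O1 O2 : RO D)
  (C1 C2 : Set L), O1.Init C1 → O2.Init C2 → ∀ (E : Type) [AddCommGroup E] (M : E →+ E) (e : W → E) (y : W),
  (∀ t ∈ Y.N y, t ∈ C1 ↔ t ∈ C2) → Rf Y O1.lt M e C1 y = Rf Y O2.lt M e C2 y

/-! ## Part S: cd-states -/

section S

/-- STLOW: the states vanish below `x` -/
def STLOW : Prop := ∀ (W L : Type) (Y : Sys W L) (lt : L → L → Prop) (R : Type) [Ring R] (c d : R) (x z : W)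
  (F : Set L), (Y.len z < Y.len x → St Y lt c d x F z = 0) ∧ (Y.len z ≤ Y.len x → Ph Y lt c d x z = 0) ∧
  St Y lt c d x F x = (0, 0, 0, 1)

/-- STN: the last component -/
def STN : Prop := ∀ (W L : Type) (Y : Sys W L) (lt : L → L → Prop) (R : Type) [Ring R] (c d : R) (x z : W)
  (F : Set L), (St Y lt c d x F z).2.2.2 = 0 ∨ (St Y lt c d x F z).2.2.2 = 1

/-- STCG: congruence -/
def STCG : Prop := ∀ (W L : Type) (Y : Sys W L) (lt lt' : L → L → Prop) (T : Set L) (F F' : Set L)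
  (R : Type) [Ring R] (c d : R) (x y : W),
  (∀ z, Low Y y z → ∀ t ∈ Y.N z, t ∈ T) → (∀ a ∈ T, ∀ b ∈ T, (lt a b ↔ lt' a b)) →
  (∀ t ∈ T, t ∈ F ↔ t ∈ F') →
  St Y lt c d x F y = St Y lt' c d x F' y ∧ Ph Y lt c d x y = Ph Y lt' c d x y

/-- SYMM: independence of the order and symmetry -/
def SYMM : Prop := ∀ (W L V : Type) [AddCommGroup V] [Module ℝ V] (Y : Sys W L) (D : Roots Y V)
  (R : Type) [Ring R], (∀ r : R, r + r = 0 → r = 0) → ∀ (c d : R) (x z : W),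
  (∀ O1 O2 : RO D, Ph Y O1.lt c d x z = Ph Y O2.lt c d x z) ∧
  (∀ (O : RO D) (C : Set L), O.Init C → St Y O.rev.lt c d x Cᶜ z = sw (St Y O.lt c d x C z)) ∧
  (∀ (O1 O2 : RO D) (C1 C2 : Set L), O1.Init C1 → O2.Init C2 → (∀ t ∈ Y.N z, t ∈ C1 ↔ t ∈ C2) →
    St Y O1.lt c d x C1 z = St Y O2.lt c d x C2 z) ∧
  (∀ (O : RO D), (St Y O.lt c d x Set.univ z).2.1 = 0)

open Classical in
/-- TWOP: the middle component for `c = d = 0` counts two-step paths with signs -/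
def TWOP : Prop := ∀ (W L V : Type) [AddCommGroup V] [Module ℝ V] (Y : Sys W L) (D : Roots Y V) (O : RO D)
  (C : Set L), O.Init C → ∀ (x y : W),
  (St Y O.lt (0 : ℤ) 0 x C y).2.1 = ∑ r ∈ Y.N y with r ∈ C, ∑ t ∈ Y.N (Y.act y r),
    if Y.act (Y.act y r) t = x then (if O.lt r t then 1 else -1) else 0

/-- LL1: it is nonnegative -/
def LL1 : Prop := ∀ (W L V : Type) [AddCommGroup V] [Module ℝ V] (Y : Sys W L) (D : Roots Y V) (O : RO D)
  (C : Set L), O.Init C → ∀ (x y : W), 0 ≤ (St Y O.lt (0 : ℤ) 0 x C y).2.1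

/-- SIDE: collinear labels below `z` are on one side of a label `r` not below `z` -/
def SIDE : Prop := ∀ (W L V : Type) [AddCommGroup V] [Module ℝ V] (Y : Sys W L) (D : Roots Y V)
  (T : Finset L) (l h : V →ₗ[ℝ] ℝ), Inj D T l → Gen D T l h → ∀ (z : W) (r t t' : L),
  r ∈ T → t ∈ T → t' ∈ T → r ∉ Y.N z → t ∈ Y.N z → t' ∈ Y.N z →
  kap D l h r t = kap D l h r t' → (pa D l t < pa D l r ↔ pa D l t' < pa D l r)

open Classical in
/-- TELE: telescoping -/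
def TELE : Prop := ∀ (L R : Type) [AddCommGroup R] (N : Finset L) (left : L → Prop) (k : L → ℝ)
  (val : Set L → R) (j : L → R),
  (∀ A A' : Set L, (∀ t ∈ N, t ∈ A ↔ t ∈ A') → val A = val A') →
  (∀ κ : ℝ, val {t | (left t ∧ k t ≤ κ) ∨ (¬ left t ∧ κ < k t)} -
    val {t | (left t ∧ k t < κ) ∨ (¬ left t ∧ κ ≤ k t)} =
      ∑ t ∈ N with k t = κ, if left t then j t else - j t) →
  val {t | left t} - val {t | ¬ left t} = ∑ t ∈ N, if left t then j t else - j t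

open Classical in
/-- PIVO: the pivot formula -/
def PIVO : Prop := ∀ (W L V : Type) [AddCommGroup V] [Module ℝ V] (Y : Sys W L) (D : Roots Y V)
  (R : Type) [Ring R], (∀ r : R, r + r = 0 → r = 0) → ∀ (c d : R) (x z : W)
  (T : Finset L) (l h : V →ₗ[ℝ] ℝ), Inj D T l → Gen D T l h → (∀ t ∈ Y.N z, t ∈ T) →
  ∀ (O : RO D) (r : L), r ∈ T → r ∉ Y.N z →
  (St Y (O.lex l).lt c d x {u | (O.lex l).lt u r} z).2.2.1 -
    (St Y (O.lex l).lt c d x {u | (O.lex l).lt u r} z).1 =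
  ∑ t ∈ Y.N z, if (O.lex l).lt r t
    then uu c d (St Y (O.kk l h (kap D l h r t)).lt c d x
      {u | (O.kk l h (kap D l h r t)).lt u t} (Y.act z t))
    else - uu c d (St Y (O.kk l h (kap D l h r t)).lt c d x
      {u | (O.kk l h (kap D l h r t)).lt u t} (Y.act z t))

/-- SAMW: the weights of two paths of length two with the same ends are equal -/
def SAMW : Prop := ∀ (W L V : Type) [AddCommGroup V] [Module ℝ V] (Y : Sys W L) (D : Roots Y V)
  (R : Type) [Ring R], (∀ r : R, r + r = 0 → r = 0) → ∀ (c d : R) (x y : W)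
  (T : Finset L) (l h : V →ₗ[ℝ] ℝ), Inj D T l → Gen D T l h → (∀ z, Low Y y z → ∀ t ∈ Y.N z, t ∈ T) →
  ∀ (O : RO D) (r t r' t' : L), r ∈ Y.N y → t ∈ Y.N (Y.act y r) → r' ∈ Y.N y → t' ∈ Y.N (Y.act y r') →
  Y.act (Y.act y r) t = Y.act (Y.act y r') t' →
  St Y (O.kk l h (kap D l h r t)).lt c d x
      {u | (O.kk l h (kap D l h r t)).lt u t} (Y.act (Y.act y r) t) =
  St Y (O.kk l h (kap D l h r' t')).lt c d x
      {u | (O.kk l h (kap D l h r' t')).lt u t'} (Y.act (Y.act y r') t')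

/-- REGR: regrouping -/
def REGR : Prop := ∀ (W L V : Type) [AddCommGroup V] [Module ℝ V] (Y : Sys W L) (D : Roots Y V)
  (R : Type) [Ring R], (∀ r : R, r + r = 0 → r = 0) → ∀ (c d : R) (x y : W)
  (T : Finset L) (l h : V →ₗ[ℝ] ℝ), Inj D T l → Gen D T l h → (∀ z, Low Y y z → ∀ t ∈ Y.N z, t ∈ T) →
  ∀ (O : RO D) (C : Set L), (O.lex l).Init C → ∀ (P : AddSubmonoid R),
  (∀ r ∈ Y.N y, ∀ t ∈ Y.N (Y.act y r), uu c d (St Y (O.kk l h (kap D l h r t)).lt c d x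
      {u | (O.kk l h (kap D l h r t)).lt u t} (Y.act (Y.act y r) t)) ∈ P) →
  (St Y (O.lex l).lt c d x C y).2.1 ∈ P

/-- PERT: perturbation of the order of parameter `k` -/
def PERT : Prop := ∀ (W L V : Type) [AddCommGroup V] [Module ℝ V] (Y : Sys W L) (D : Roots Y V)
  (T : Finset L) (l h : V →ₗ[ℝ] ℝ) (k : ℝ), Inj D T l →
  ∃ l' : V →ₗ[ℝ] ℝ, Inj D T l' ∧ ∀ (O : RO D), ∀ a ∈ T, ∀ b ∈ T, (O.kk l h k).lt a b ↔ (O.lex l').lt a b

/-- GENX: generic functionals exist -/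
def GENX : Prop := ∀ (W L V : Type) [AddCommGroup V] [Module ℝ V] (Y : Sys W L) (D : Roots Y V)
  (T : Finset L), (∃ l : V →ₗ[ℝ] ℝ, Inj D T l) ∧
    ∀ l : V →ₗ[ℝ] ℝ, Inj D T l → ∃ h : V →ₗ[ℝ] ℝ, Gen D T l h

/-- LOWT: the labels below `y` are in a finite set -/
def LOWT : Prop := ∀ (W L : Type) (Y : Sys W L) (y : W),
  ∃ T : Finset L, ∀ z, Low Y y z → ∀ t ∈ Y.N z, t ∈ T

/-- POSI: positivity for lexicographic orders -/
def POSI : Prop := ∀ (W L V : Type) [AddCommGroup V] [Module ℝ V] (Y : Sys W L) (D : Roots Y V)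
  (R : Type) [Ring R], (∀ r : R, r + r = 0 → r = 0) → ∀ (c d : R) (P : AddSubmonoid R), (1 : R) ∈ P →
  (∀ p ∈ P, p * c ∈ P) → (∀ p ∈ P, p * d ∈ P) → ∀ (x y : W) (T : Finset L) (l : V →ₗ[ℝ] ℝ), Inj D T l →
  (∀ z, Low Y y z → ∀ t ∈ Y.N z, t ∈ T) → ∀ (O : RO D) (C : Set L), (O.lex l).Init C →
  (St Y (O.lex l).lt c d x C y).1 ∈ P ∧ (St Y (O.lex l).lt c d x C y).2.1 ∈ P ∧
  (St Y (O.lex l).lt c d x C y).2.2.1 ∈ P ∧ Ph Y (O.lex l).lt c d x y ∈ P

/-- ABCD: the ab-words sum up to the cd-index -/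
def ABCD : Prop := ∀ (W L V : Type) [AddCommGroup V] [Module ℝ V] (Y : Sys W L) (D : Roots Y V)
  (R : Type) [Ring R], (∀ r : R, r + r = 0 → r = 0) → ∀ (O : RO D) (a b : R) (x z : W),
  Ab Y O.lt a b x Set.univ z = Ph Y O.lt (a + b) (a * b + b * a) x z

/-- ABMAP: ring homomorphisms -/
def ABMAP : Prop := ∀ (W L : Type) (Y : Sys W L) (lt : L → L → Prop) (R R' : Type) [Semiring R] [Semiring R']
  (φ : R →+* R') (a b : R) (x : W) (F : Set L) (z : W),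
  φ (Ab Y lt a b x F z) = Ab Y lt (φ a) (φ b) x F z

/-- FRAL: free algebras -/
def FRAL : Prop := (∃ φ : FreeAlgebra ℕ (Fin 2) →+* FreeAlgebra ℤ (Fin 2), Function.Injective φ ∧
    ∀ i, φ (FreeAlgebra.ι ℕ i) = FreeAlgebra.ι ℤ i) ∧
  ∀ r : FreeAlgebra ℤ (Fin 2), r + r = 0 → r = 0

end S

/-! ## Part G: Coxeter groups -/

section G

/-- GEOM: the geometric representation exists -/
def GEOM : Prop := ∀ (B W : Type) [Group W] (M : CoxeterMatrix B) (cs : CoxeterSystem M W), Nonempty (Geo cs)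

/-- COEQ: invariance of the pairing -/
def COEQ : Prop := ∀ (B W : Type) [Group W] (M : CoxeterMatrix B) (cs : CoxeterSystem M W) (G : Geo cs)
  (w : W) (β : B →₀ ℝ), ∃ β' : B →₀ ℝ, G.ρ w (iv β) = iv β' ∧
    (∀ v, co M β' (G.ρ w v) = co M β v) ∧ G.ρ w * rf M β = rf M β' * G.ρ w ∧
    co M β' (iv β') = co M β (iv β)

/-- POSR: `ℓ(w s_i) > ℓ(w)` implies `ρ(w) α_i ≥ 0` -/
def POSR : Prop := ∀ (B W : Type) [Group W] (M : CoxeterMatrix B) (cs : CoxeterSystem M W) (G : Geo cs)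
  (w : W) (i : B), cs.length w < cs.length (w * cs.simple i) →
  ∃ β : B →₀ ℝ, (∀ j, 0 ≤ β j) ∧ G.ρ w (iv (al i)) = iv β

/-- ROOT: the positive roots -/
def ROOT : Prop := ∀ (B W : Type) [Group W] (M : CoxeterMatrix B) (cs : CoxeterSystem M W) (G : Geo cs),
  Nonempty (RootFn G)

/-- SIGN: the sign rule -/
def SIGN : Prop := ∀ (B W : Type) [Group W] (M : CoxeterMatrix B) (cs : CoxeterSystem M W) (G : Geo cs)
  (Rt : RootFn G) (z : W) (t : {t : W // cs.IsReflection t}),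
  (cs.length z < cs.length (z * t.1) → ∃ β : B →₀ ℝ, (∀ j, 0 ≤ β j) ∧ G.ρ z (iv (Rt.rt t)) = iv β) ∧
  (cs.length (z * t.1) < cs.length z → ∃ β : B →₀ ℝ, (∀ j, 0 ≤ β j) ∧ G.ρ z (iv (Rt.rt t)) = - iv β)

/-- FINN: finitely many inversions -/
def FINN : Prop := ∀ (B W : Type) [Group W] (M : CoxeterMatrix B) (cs : CoxeterSystem M W) (w : W),
  {t : {t : W // cs.IsReflection t} | cs.length (w * t.1) < cs.length w}.Finite

/-- PLAN: products of two reflections determine the plane of the roots -/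
def PLAN : Prop := ∀ (B W : Type) [Group W] (M : CoxeterMatrix B) (cs : CoxeterSystem M W) (G : Geo cs)
  (Rt : RootFn G) (r t r' t' : {t : W // cs.IsReflection t}), r ≠ t → r.1 * t.1 = r'.1 * t'.1 →
  ∃ a b a' b' : ℝ, Rt.rt r' = a • Rt.rt r + b • Rt.rt t ∧ Rt.rt t' = a' • Rt.rt r + b' • Rt.rt t

/-- MODL: the model -/
def MODL : Prop := ∀ (B W : Type) [Group W] (M : CoxeterMatrix B) (cs : CoxeterSystem M W) (G : Geo cs)
  (Rt : RootFn G), Nonempty (Model Rt)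

/-- DORD: the order of the reflections of a dihedral group (abstract form) -/
def DORD : Prop := ∀ (W : Type) [Group W] (T : Set W) (p lt : W → W → Prop),
  (∀ t ∈ T, t * t = 1) → (∃ a ∈ T, ∃ b ∈ T, a ≠ b) →
  (∀ t ∈ T, ¬ p t t) → (∀ a ∈ T, ∀ b ∈ T, ∀ c ∈ T, p a b → p b c → p a c) →
  (∀ a ∈ T, ∀ b ∈ T, p a b ∨ a = b ∨ p b a) →
  (∀ a ∈ T, ∀ b ∈ T, a * b * a ∈ T) →
  (∀ t ∈ T, {u ∈ T | p u t}.Finite ∨ {u ∈ T | p t u}.Finite) →
  (∀ α ∈ T, (∀ u ∈ T, u ≠ α → p α u) → ∀ u ∈ T, ∀ u' ∈ T, u ≠ α → u' ≠ α → p u u' →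
    p (α * u' * α) (α * u * α)) →
  (∀ β ∈ T, (∀ u ∈ T, u ≠ β → p u β) → ∀ u ∈ T, ∀ u' ∈ T, u ≠ β → u' ≠ β → p u u' →
    p (β * u' * β) (β * u * β)) →
  (∀ t, ¬ lt t t) → (∀ a b c, lt a b → lt b c → lt a c) → (∀ a b, lt a b ∨ a = b ∨ lt b a) →
  (∀ α ∈ T, ∀ β ∈ T, (∀ u ∈ T, u ≠ α → p α u) → (∀ u ∈ T, u ≠ β → p u β) → lt α β →
      (orderOf (α * β) ≠ 0 → ∀ i j : ℕ, i < j → j < orderOf (α * β) →
          lt ((α * β) ^ i * α) ((α * β) ^ j * α)) ∧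
      (orderOf (α * β) = 0 →
        (∀ i j : ℕ, i < j → lt ((α * β) ^ i * α) ((α * β) ^ j * α)) ∧
        (∀ i j : ℕ, i < j → lt ((β * α) ^ j * β) ((β * α) ^ i * β)) ∧
        (∀ i j : ℕ, lt ((α * β) ^ i * α) ((β * α) ^ j * β)))) →
  (∀ α ∈ T, ∀ β ∈ T, (∀ u ∈ T, u ≠ α → p α u) → (∀ u ∈ T, u ≠ β → p u β) → lt β α →
      (orderOf (β * α) ≠ 0 → ∀ i j : ℕ, i < j → j < orderOf (β * α) →
          lt ((β * α) ^ i * β) ((β * α) ^ j * β)) ∧
      (orderOf (β * α) = 0 →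
        (∀ i j : ℕ, i < j → lt ((β * α) ^ i * β) ((β * α) ^ j * β)) ∧
        (∀ i j : ℕ, i < j → lt ((α * β) ^ j * α) ((α * β) ^ i * α)) ∧
        (∀ i j : ℕ, lt ((β * α) ^ i * β) ((α * β) ^ j * α)))) →
  (∀ u ∈ T, ∀ u' ∈ T, p u u' → lt u u') ∨ (∀ u ∈ T, ∀ u' ∈ T, p u u' → lt u' u)

/-- DIHG: reflection orders in the sense of the frozen statement have the betweenness property -/
def DIHG : Prop := ∀ (B W : Type) [Group W] (M : CoxeterMatrix B) (cs : CoxeterSystem M W) (G : Geo cs)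
  (Rt : RootFn G) (lt : W → W → Prop), (∀ t, ¬ lt t t) → (∀ a b c, lt a b → lt b c → lt a c) →
  (∀ a b, lt a b ∨ a = b ∨ lt b a) → RefOrd cs lt →
  ∀ (a b u : {t : W // cs.IsReflection t}) (x y : ℝ), 0 < x → 0 < y → a ≠ b →
  Rt.rt u = x • Rt.rt a + y • Rt.rt b → (lt a.1 u.1 ∧ lt u.1 b.1) ∨ (lt b.1 u.1 ∧ lt u.1 a.1)

open Classical in
/-- FROZ: the sum over paths is `Ab` -/
def FROZ : Prop := ∀ (B W : Type) [Group W] (M : CoxeterMatrix B) (cs : CoxeterSystem M W)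
  (Y : Sys W {t : W // cs.IsReflection t}), (∀ w t, Y.act w t = w * t.1) → (∀ w, Y.len w = cs.length w) →
  (∀ w t, t ∈ Y.N w ↔ cs.length (w * t.1) < cs.length w) →
  ∀ (lt : W → W → Prop) (R : Type) [Semiring R] (a b : R) (u v : W),
  ∑ k ∈ Finset.range (cs.length v),
        ∑ᶠ (x : Fin (k + 2) → W) (_ : x 0 = u ∧ x (Fin.last (k + 1)) = v ∧
            ∀ i : Fin (k + 1), cs.IsReflection ((x i.castSucc)⁻¹ * x i.succ) ∧
              cs.length (x i.castSucc) < cs.length (x i.succ)),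
          (List.ofFn (fun i : Fin k =>
            if lt ((x i.castSucc.castSucc)⁻¹ * x i.castSucc.succ)
                  ((x i.succ.castSucc)⁻¹ * x i.succ.succ)
            then a else b)).prod =
    Ab Y (fun s t => lt s.1 t.1) a b u Set.univ v

end G

end Pool.Agent.H52.CD
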